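import Pool.Agent.Q69.ZO.Law
import Pool.Agent.Q67.TG.Cpx2
import Pool.Agent.Y121.AH.HR

/-!
# The zero-one law for classes which contain the Hodge classes
-/

set_option autoImplicit false
set_option linter.unusedSectionVars false

open CategoryTheory AlgebraicGeometry TensorProduct Filter Topology Module

universe u v

namespace Pool.Agent.Q69.ZO

open Pool.Agent.H914 Pool.Agent.H914.VarClass Pool.Agent.H914.VarClass.Obj
  Pool.Agent.H914.WeilCohomology
open Pool.Agent.Y133.Half hiding prj extOp_xp pd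
open Pool.Agent.Q67.Det Pool.Agent.Q67.TK Pool.Agent.Q67.TG
open Pool.Agent.Y121.AH
open scoped Matrix

variable {k : Type u} [Field k] {𝒱 : VarClass k} {ops : CycleOps 𝒱}

section OpIff

variable {W : WeilCohomology.{u, v} ops} {X : 𝒱.Obj}
variable {n : ℕ} {v : Module.Basis (Fin n) W.K (W.H X)} {d : Fin n → ℕ}

lemma finrank_Op (R : Sys W) : Module.finrank W.K (R.Op X X) =
    Module.finrank W.K (R.C (X.prod X)) := by
  symm
  refine LinearEquiv.finrank_eq (LinearEquiv.ofBijective (R.corrS X X)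
    ⟨fun c c' h => Subtype.ext (corr_ext (congrArg Subtype.val h)), Sys.corrS_surjective⟩)

/-- An operator is given by a class of a system if and only if its tensor is a tensor of the
system. -/
lemma op_iff {R : Sys W} (hd : ∀ b, v b ∈ W.gr X (d b)) (Y : Module.End W.K (W.H X)) :
    t2 (mt v Y * (qM v 1)⁻¹) ∈ Cs R v 2 ↔ Y ∈ R.Op X X := by
  have hκ : t2 (qM v 1)⁻¹ ∈ Cs R v 2 := kap_mem hd Sys.Op.id OddIn.q_kap
  have key : ∀ φ : Module.End W.K (W.H X), φ ∈ R.Op X X →
      t2 (mt v φ * (qM v 1)⁻¹) ∈ Cs R v 2 := by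
    intro φ hφ
    have h2 := Cs_gM (v := v) (φ := ![φ, 1]) (S := R) (fun i => by
      fin_cases i
      · exact hφ
      · exact Sys.Op.id) hκ
    have h3 : (fun i : Fin 2 => mt v ((![φ, 1] : Fin 2 → Module.End W.K (W.H X)) i)) =
        ![mt v φ, 1] := by
      funext i
      fin_cases i
      · rfl
      · exact mt_one
    rw [h3, gM_t2] at h2
    exact h2
  refine ⟨fun hY => ?_, key Y⟩
  set L : R.Op X X →ₗ[W.K] Cs R v 2 :=
    { toFun := fun φ => ⟨t2 (mt v (φ : Module.End W.K (W.H X)) * (qM v 1)⁻¹), key φ φ.2⟩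
      map_add' := fun φ ψ => by
        apply Subtype.ext
        change t2 (mt v ((φ : Module.End W.K (W.H X)) + ψ) * (qM v 1)⁻¹) = _
        rw [Q67.TG.mt, map_add, Matrix.add_mul]
        rfl
      map_smul' := fun c φ => by
        apply Subtype.ext
        change t2 (mt v (c • (φ : Module.End W.K (W.H X))) * (qM v 1)⁻¹) = _
        rw [Q67.TG.mt, map_smul, Matrix.smul_mul]
        rfl } with hL
  have hcan : ∀ φ ψ : Module.End W.K (W.H X),
      t2 (mt v φ * (qM v 1)⁻¹) = t2 (mt v ψ * (qM v 1)⁻¹) → φ = ψ := by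
    intro φ ψ h
    have h1 := congrArg (· * qM v 1) (t2_injective h)
    simp only [Matrix.mul_assoc, mul_eq_one_comm.1 (OddIn.q_kap (v := v)), Matrix.mul_one] at h1
    exact mt_inj h1
  have hinj : Function.Injective L := fun φ ψ h =>
    Subtype.ext (hcan _ _ (congrArg Subtype.val h))
  have hfr : Module.finrank W.K (R.Op X X) = Module.finrank W.K (Cs R v 2) := by
    rw [finrank_Op]
    exact (finrank_Cs (v := v) (S := R) (m := 1)).symm
  have hsurj : Function.Surjective L := by
    have h1 : Module.finrank W.K (LinearMap.range L) = Module.finrank W.K (Cs R v 2) := by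
      rw [LinearMap.finrank_range_of_inj hinj, hfr]
    exact LinearMap.range_eq_top.1 (Submodule.eq_top_of_finrank_eq h1)
  obtain ⟨φ, hφ⟩ := hsurj ⟨_, hY⟩
  have h1 := hcan _ _ (congrArg Subtype.val hφ)
  rw [← h1]
  exact φ.2

end OpIff

section Hodge

variable (T : HodgeTheory ops) (X : 𝒱.Obj)

lemma vC_gr {n : ℕ} {v : Module.Basis (Fin n) T.W.K (T.W.H X)} {d : Fin n → ℕ}
    (hd : ∀ b, v b ∈ T.W.gr X (d b)) (b : Fin n) : vC v b ∈ (CW T).gr X (d b) := by
  rw [vC_apply]
  exact Submodule.tmul_mem_baseChange_of_mem (1 : ℂ) (hd b)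

lemma charZero_CW : CharZero (CW T).K := (inferInstance : CharZero ℂ)

/-- The projector onto the cohomology of odd degree is given by Hodge classes. -/
theorem oddIn_hodge : OddIn (hodgeSys T) X := by
  have hch := charZero_K T
  have hch' := charZero_CW T
  obtain ⟨n, v, d, hd⟩ := exists_homog_basis T.W X
  refine ⟨(op_iff (v := v) (R := hodgeSys T) hd _).1 ?_⟩
  have hker : Cs (hodgeSys T) v 2 = Ker (K := T.W.K) (zM v) 2 := hodge_Cs v 2
  have hκ : t2 (qM v (1 : Module.End T.W.K (T.W.H X)))⁻¹ ∈ Ker (K := T.W.K) (zM v) 2 := by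
    rw [← hker]
    exact kap_mem hd Sys.Op.id OddIn.q_kap
  have hskew : zM v * upM (qM v (1 : Module.End T.W.K (T.W.H X)))⁻¹ +
      upM (qM v (1 : Module.End T.W.K (T.W.H X)))⁻¹ * (zM v)ᵀ = 0 := by
    have h1 := mem_Ker.1 hκ
    have h2 : up (t2 (qM v (1 : Module.End T.W.K (T.W.H X)))⁻¹) =
        t2 (upM (qM v (1 : Module.End T.W.K (T.W.H X)))⁻¹) := rfl
    rw [h2, dM_t2] at h1
    exact t2_injective h1
  have hcomm : zM v * upM (mt v (oddP T.W X)) = upM (mt v (oddP T.W X)) * zM v := by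
    have hgr := vC_gr T X hd
    have h1 : oddP (CW T) X * zop T X = zop T X * oddP (CW T) X := by
      refine (vC v).ext fun b => ?_
      have h2 : zop T X (vC v b) ∈ (CW T).gr X (d b) := by
        rw [vC_apply]
        exact zop_gr (hd b)
      change oddP (CW T) X (zop T X (vC v b)) = zop T X (oddP (CW T) X (vC v b))
      rw [oddP_apply (PH.of h2), oddP_apply (PH.of (hgr b))]
      split_ifs
      · rfl
      · rw [map_zero]
    have h2 := congrArg (mt (vC v)) h1
    rw [mt_mul, mt_mul, mt_oddP hgr] at h2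
    have h3 : upM (mt v (oddP T.W X)) = pd ℂ d := by
      rw [mt_oddP hd]
      ext i j
      rw [upM_apply]
      simp only [Pool.Agent.Q67.TG.pd, Matrix.diagonal_apply]
      split_ifs <;> simp
    rw [h3]
    exact h2.symm
  rw [hker, mem_Ker]
  have h2 : up (t2 (mt v (oddP T.W X) * (qM v (1 : Module.End T.W.K (T.W.H X)))⁻¹)) =
      t2 (upM (mt v (oddP T.W X)) * upM (qM v (1 : Module.End T.W.K (T.W.H X)))⁻¹) := by
    rw [← upM_mul]
    rfl
  rw [h2, dM_t2_skew hskew, hcomm, sub_self, Matrix.zero_mul]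
  funext I
  rfl

/-- The classes killed by all operators which kill the Hodge classes on all powers are Hodge
classes. -/
theorem closed_hodge {n : ℕ} {c : T.W.H (pw X n)}
    (h : ∀ A : Module.End T.W.K (T.W.H X),
      (∀ m, ∀ s ∈ (hodgeSys T).C (pw X m), derOp A m s = 0) → derOp A n c = 0) :
    c ∈ (hodgeSys T).C (pw X n) := by
  have hch := charZero_K T
  obtain ⟨N, v, d, hd⟩ := exists_homog_basis T.W X
  have hker : Cs (hodgeSys T) v = Ker (K := T.W.K) (zM v) := funext fun l => hodge_Cs v l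
  obtain ⟨F, rfl⟩ := PP_surj v c
  rw [← mem_Cs_succ (S := hodgeSys T), hker]
  apply mem_Ker_of
  intro A hA
  rw [← hker] at hA
  have h1 : mt v (Matrix.toLin v v A) = A := LinearMap.toMatrix_toLin v v A
  have h2 := h (Matrix.toLin v v A) ((mem_Ann_Cs (v := v)).1 (by
    intro m F hF
    rw [h1]
    exact hA m F hF))
  rw [derOp_PP, h1] at h2
  exact PP_inj v (h2.trans (PP_zero _).symm)

end Hodge

end Pool.Agent.Q69.ZO
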