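import Pool.Agent.Q69.ZO.Pred
import Pool.Agent.Q67.TL.Bc

/-!
# The zero-one law after extension of the coefficients
-/

set_option autoImplicit false
set_option linter.unusedSectionVars false

open CategoryTheory AlgebraicGeometry TensorProduct Filter Topology Module

universe u v

namespace Pool.Agent.Q69.ZO

open Pool.Agent.H914 Pool.Agent.H914.VarClass Pool.Agent.H914.VarClass.Obj
  Pool.Agent.H914.WeilCohomology
open Pool.Agent.Y133.Half hiding prj extOp_xp pd
open Pool.Agent.Q67.Det Pool.Agent.Q67.TK Pool.Agent.Q67.TG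
open Pool.Agent.Y121 Pool.Agent.Y121.AH

section Lin

variable {K L : Type*} [Field K] [Field L] [Algebra K L] {M N : Type*} [AddCommGroup M]
  [Module K M] [AddCommGroup N] [Module K N]

/-- The component of a vector with extended coefficients given by a functional. -/
noncomputable def sl (l : L →ₗ[K] K) (M : Type*) [AddCommGroup M] [Module K M] :
    L ⊗[K] M →ₗ[K] M :=
  (TensorProduct.lid K M).toLinearMap ∘ₗ l.rTensor M

lemma sl_tmul (l : L →ₗ[K] K) (a : L) (m : M) : sl l M (a ⊗ₜ m) = l a • m := by
  rw [sl, LinearMap.comp_apply, LinearMap.rTensor_tmul]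
  exact TensorProduct.lid_tmul _ _

lemma sl_bc (l : L →ₗ[K] K) (φ : M →ₗ[K] N) (x : L ⊗[K] M) :
    sl l N (φ.baseChange L x) = φ (sl l M x) := by
  induction x using TensorProduct.induction_on with
  | zero => simp
  | tmul a m => rw [LinearMap.baseChange_tmul, sl_tmul, sl_tmul, map_smul]
  | add x y hx hy => rw [map_add, map_add, hx, hy, map_add, map_add]

lemma mem_baseChange_of_sl {p : Submodule K M} {x : L ⊗[K] M} (h : ∀ l, sl l M x ∈ p) :
    x ∈ p.baseChange L := by
  classical
  let b := Basis.ofVectorSpace K L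
  have h1 : x = ((TensorProduct.equivFinsuppOfBasisLeft b) x).sum fun i n => b i ⊗ₜ[K] n := by
    rw [← TensorProduct.equivFinsuppOfBasisLeft_symm_apply, LinearEquiv.symm_apply_apply]
  rw [h1]
  refine Submodule.sum_mem _ fun i _ => ?_
  refine Submodule.tmul_mem_baseChange_of_mem _ ?_
  rw [TensorProduct.equivFinsuppOfBasisLeft_apply]
  exact h (b.coord i)

end Lin

variable {k : Type u} [Field k] {𝒱 : VarClass k} {ops : CycleOps 𝒱}

section Der

variable {W : WeilCohomology.{u, 0} ops} {X : 𝒱.Obj} {L : Type} [Field L] [Algebra W.K L]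

lemma pw_ind {m : ℕ} {p : W.H (pw X m) → Prop}
    (h : ∀ (d : Fin (m + 1) → ℕ) (x : Fin (m + 1) → W.H X), (∀ i, x i ∈ W.gr X (d i)) →
      p (ten W X m x)) (h0 : p 0) (hadd : ∀ a b, p a → p b → p (a + b))
    (hsmul : ∀ (r : W.K) a, p a → p (r • a)) (c : W.H (pw X m)) : p c := by
  refine gr_induction (W.isInternal (pw X m)) (p := p) ?_ hadd c
  intro N c hc
  have h1 := gr_pw m hc
  clear hc
  induction h1 using Submodule.span_induction with
  | mem z hz => obtain ⟨d, x, hx, _, rfl⟩ := hz; exact h d x hx
  | zero => exact h0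
  | add a b _ _ ha hb => exact hadd _ _ ha hb
  | smul r a _ ha => exact hsmul _ _ ha

/-- Derivations and the extension of the coefficients. -/
lemma derOp_bc (A : Module.End W.K (W.H X)) (m : ℕ) :
    derOp (W := baseW W L) (bcE L A) m = bcE L (derOp A m) := by
  refine em_ext fun x => ?_
  rw [bcE_em]
  refine pw_ind (p := fun x => derOp (W := baseW W L) (bcE L A) m (em W L x) =
      em W L (derOp A m x)) ?_ ?_ ?_ ?_ x
  · intro d x _
    rw [em_tenL, derOp_ten, derOp_ten, em_sumL]
    refine Finset.sum_congr rfl fun i _ => ?_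
    rw [em_tenL, bcE_em]
    congr 1
    funext l
    by_cases hl : l = i
    · subst hl; rw [Function.update_self, Function.update_self]
    · rw [Function.update_of_ne hl, Function.update_of_ne hl]
  · rw [em_zero, map_zero, map_zero, em_zero]
  · intro a b ha hb
    rw [em_add, map_add, map_add, em_add, ha, hb]
  · intro r a ha
    rw [em_smul, map_smul, map_smul, em_smul, ha]

end Der

section Hodge

variable {T : HodgeTheory ops} {X : 𝒱.Obj} {L : Type} [Field L] [Algebra T.W.K L]

lemma charZero_base (T : HodgeTheory ops) (L : Type) [Field L] [Algebra T.W.K L] :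
    CharZero (baseW T.W L).K := by
  have hch := charZero_K T
  have h1 : CharZero L := charZero_of_injective_algebraMap (algebraMap T.W.K L).injective
  exact h1

lemma oddIn_base : OddIn ((hodgeSys T).base L) X := by
  have hch := charZero_K T
  have hch' := charZero_base T L
  refine ⟨?_⟩
  rw [← odd_base]
  exact op_base (oddIn_hodge T X).odd

/-- Operators which kill the Hodge classes kill their combinations. -/
lemma kill_base {A : Module.End T.W.K (T.W.H X)}
    (hA : ∀ m, ∀ s ∈ (hodgeSys T).C (pw X m), derOp A m s = 0) (m : ℕ)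
    {s : (baseW T.W L).H (pw X m)} (hs : s ∈ ((hodgeSys T).base L).C (pw X m)) :
    derOp (W := baseW T.W L) (bcE L A) m s = 0 := by
  rw [derOp_bc]
  refine base_induction (P := fun s : L ⊗[T.W.K] T.W.H (pw X m) =>
    (derOp A m).baseChange L s = 0) ?_ ?_ ?_ hs
  · exact map_zero _
  · intro x y hx hy; rw [map_add, hx, hy, add_zero]
  · intro l a ha
    rw [LinearMap.baseChange_tmul, hA m a ha, TensorProduct.tmul_zero]

/-- The classes killed by all operators which kill the Hodge classes on all powers are
combinations of Hodge classes. -/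
theorem closed_base {n : ℕ} {c : (baseW T.W L).H (pw X n)}
    (h : ∀ A : Module.End (baseW T.W L).K ((baseW T.W L).H X),
      (∀ m, ∀ s ∈ ((hodgeSys T).base L).C (pw X m), derOp (W := baseW T.W L) A m s = 0) →
        derOp (W := baseW T.W L) A n c = 0) :
    c ∈ ((hodgeSys T).base L).C (pw X n) := by
  refine mem_baseChange_of_sl (p := (hodgeSys T).C (pw X n)) fun l => ?_
  refine closed_hodge T X fun A hA => ?_
  have h1 := h (bcE L A) fun m s hs => kill_base hA m hs
  rw [derOp_bc] at h1
  have h2 : (derOp A n).baseChange L c = 0 := h1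
  rw [← sl_bc, h2, map_zero]

/-- **The zero-one law for a system which contains the Hodge classes on the powers.** -/
theorem zero_one_base (R : Sys (baseW T.W L)) [Nontrivial (T.W.H X)]
    (h : ∀ n, ((hodgeSys T).base L).C (pw X n) ≤ R.C (pw X n)) :
    (∀ n, R.C (pw X n) = ((hodgeSys T).base L).C (pw X n)) ∨
      Tendsto (fun n => (finrank T.W.K ((hodgeSys T).C (pw X n)) : ℝ) /
        finrank (baseW T.W L).K (R.C (pw X n))) atTop (𝓝 0) := by
  have hch' := charZero_base T L
  have hnt : Nontrivial ((baseW T.W L).H X) := by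
    obtain ⟨x, hx⟩ := exists_ne (0 : T.W.H X)
    exact ⟨em T.W L x, 0, fun h => hx (em_injective h)⟩
  have h1 := zero_one (S := (hodgeSys T).base L) (R := R) (X := X)
    (fun n => Sys.Nondeg.base L fun x hx hxy => hodge_nondeg hx hxy) oddIn_base
    (stab_of_le_pw h) h fun n c _ hA => closed_base hA
  simpa only [Sys.finrank_base] using h1

end Hodge

end Pool.Agent.Q69.ZO
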