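import Pool.Agent.Q69.ZO.Gal

/-!
# Transport of classes along a comparison of cohomology theories
-/

set_option autoImplicit false
set_option linter.unusedSectionVars false

open CategoryTheory AlgebraicGeometry TensorProduct Filter Topology Module

universe u v w

namespace Pool.Agent.Q69.ZO

open Pool.Agent.H914 Pool.Agent.H914.VarClass Pool.Agent.H914.VarClass.Obj
  Pool.Agent.H914.WeilCohomology
open Pool.Agent.Y133.Half hiding prj extOp_xp pd
open Pool.Agent.Y121 Pool.Agent.H281R3.HT Pool.Agent.W536.RR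

variable {k : Type u} [Field k] {𝒱 : VarClass k} {ops : CycleOps 𝒱}

namespace Comparison

section Fields

variable {W V : WeilCohomology.{u, v} ops} (C : Comparison W V)

/-- The homomorphism of the coefficients. -/
def rh : W.K →+* V.K where
  toFun := C.ι
  map_zero' := C.hom.1
  map_one' := C.hom.2.1
  map_add' := C.hom.2.2.1
  map_mul' := C.hom.2.2.2

lemma add (Z : 𝒱.Obj) (x y : W.H Z) : C.em Z (x + y) = C.em Z x + C.em Z y := (C.semi Z).1 x y

lemma mul (Z : 𝒱.Obj) (x y : W.H Z) : C.em Z (x * y) = C.em Z x * C.em Z y := (C.semi Z).2.1 x y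

lemma smul (Z : 𝒱.Obj) (r : W.K) (x : W.H Z) : C.em Z (r • x) = C.ι r • C.em Z x :=
  (C.semi Z).2.2 r x

lemma span (Z : 𝒱.Obj) : Submodule.span V.K (Set.range (C.em Z)) = ⊤ := (C.isExt Z).1

lemma map' {Y Z : 𝒱.Obj} (f : Y ⟶ Z) (x : W.H Z) : C.em Y (W.map f x) = V.map f (C.em Z x) :=
  C.map f x

lemma tr' (Z : 𝒱.Obj) (x : W.H Z) : V.tr Z (C.em Z x) = C.ι (W.tr Z x) := C.tr Z x

lemma cl' (Z : 𝒱.Obj) (z : Z.Cycles) : C.em Z (W.cl Z z) = V.cl Z z := C.cl Z z

include C in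
lemma rank (Z : 𝒱.Obj) : finrank V.K (V.H Z) = finrank W.K (W.H Z) := (C.isExt Z).2

end Fields

section Phi

variable {W V : WeilCohomology.{u, v} ops} [Algebra W.K V.K] (C : Comparison W V)
  (hι : ∀ r, C.ι r = algebraMap W.K V.K r) {X Y Z : 𝒱.Obj}

/-- The linear map from the extended cohomology. -/
noncomputable def Φ (Z : 𝒱.Obj) : V.K ⊗[W.K] W.H Z →ₗ[V.K] V.H Z :=
  letI : Module W.K (V.H Z) := Module.compHom _ (algebraMap W.K V.K)
  haveI : IsScalarTower W.K V.K (V.H Z) :=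
    ⟨fun r s y => by rw [Algebra.smul_def r s]; exact mul_smul (algebraMap W.K V.K r) s y⟩
  LinearMap.liftBaseChange V.K
    { toFun := C.em Z
      map_add' := C.add Z
      map_smul' := fun r x => (C.smul Z r x).trans (by rw [hι]; rfl) }

include hι

lemma Φ_tmul (l : V.K) (x : W.H Z) : C.Φ hι Z (l ⊗ₜ[W.K] x) = l • C.em Z x := by
  letI : Module W.K (V.H Z) := Module.compHom _ (algebraMap W.K V.K)
  haveI : IsScalarTower W.K V.K (V.H Z) :=
    ⟨fun r s y => by rw [Algebra.smul_def r s]; exact mul_smul (algebraMap W.K V.K r) s y⟩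
  exact LinearMap.liftBaseChange_tmul _ _ _ _

lemma Φ_mul (a b : V.K ⊗[W.K] W.H Z) : C.Φ hι Z (a * b) = C.Φ hι Z a * C.Φ hι Z b := by
  induction a using TensorProduct.induction_on with
  | zero => rw [zero_mul, map_zero, zero_mul]
  | add a a' ha ha' => rw [add_mul, map_add, ha, ha', map_add, add_mul]
  | tmul l x =>
    induction b using TensorProduct.induction_on with
    | zero => rw [mul_zero, map_zero, mul_zero]
    | add b b' hb hb' => rw [mul_add, map_add, hb, hb', map_add, mul_add]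
    | tmul l' x' =>
      rw [Algebra.TensorProduct.tmul_mul_tmul, Φ_tmul, Φ_tmul, Φ_tmul, C.mul, smul_mul_smul_comm]

lemma Φ_surj (Z : 𝒱.Obj) : Function.Surjective (C.Φ hι Z) := by
  rw [← LinearMap.range_eq_top, eq_top_iff, ← C.span Z, Submodule.span_le]
  rintro _ ⟨x, rfl⟩
  exact ⟨1 ⊗ₜ[W.K] x, by rw [Φ_tmul, one_smul]⟩

lemma Φ_inj (Z : 𝒱.Obj) : Function.Injective (C.Φ hι Z) := by
  have h1 : finrank V.K (V.K ⊗[W.K] W.H Z) = finrank V.K (V.H Z) := by
    rw [Module.finrank_baseChange, C.rank]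
  exact (LinearMap.injective_iff_surjective_of_finrank_eq_finrank h1).2 (C.Φ_surj hι Z)

lemma Φ_map (f : X ⟶ Y) (a : V.K ⊗[W.K] W.H Y) :
    C.Φ hι X (mapBase V.K (W.map f) a) = V.map f (C.Φ hι Y a) := by
  induction a using TensorProduct.induction_on with
  | zero => rw [map_zero, map_zero, map_zero, map_zero]
  | add a a' ha ha' => rw [map_add, map_add, ha, ha', map_add, map_add]
  | tmul l x =>
    have h1 : mapBase V.K (W.map f) (l ⊗ₜ[W.K] x) = l ⊗ₜ[W.K] W.map f x :=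
      Algebra.TensorProduct.map_tmul _ _ _ _
    rw [h1, Φ_tmul, Φ_tmul, map_smul, C.map']

lemma Φ_tr (a : V.K ⊗[W.K] W.H Z) : V.tr Z (C.Φ hι Z a) = formBase V.K (W.tr Z) a := by
  induction a using TensorProduct.induction_on with
  | zero => rw [map_zero, map_zero, map_zero]
  | add a a' ha ha' => rw [map_add, map_add, ha, ha', map_add]
  | tmul l x => rw [Φ_tmul, map_smul, formBase_tmul, C.tr', hι, smul_eq_mul]

lemma Φ_push (f : X ⟶ Y) (a : V.K ⊗[W.K] W.H X) :
    C.Φ hι Y ((W.push f).baseChange V.K a) = V.push f (C.Φ hι X a) := by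
  apply V.tr_ext
  intro c
  obtain ⟨c, rfl⟩ := C.Φ_surj hι Y c
  rw [V.tr_push, ← Φ_mul, Φ_tr, ← Φ_map, ← Φ_mul, Φ_tr]
  exact (baseW W V.K).tr_push f a c

lemma Φ_gr {i : ℕ} {a : V.K ⊗[W.K] W.H Z} (ha : a ∈ (W.gr Z i).baseChange V.K) :
    C.Φ hι Z a ∈ V.gr Z i := by
  refine base_induction (P := fun a : V.K ⊗[W.K] W.H Z => C.Φ hι Z a ∈ V.gr Z i) ?_ ?_ ?_ ha
  · rw [map_zero]; exact Submodule.zero_mem _
  · intro x y hx hy; rw [map_add]; exact Submodule.add_mem _ hx hy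
  · intro l a ha; rw [Φ_tmul]; exact Submodule.smul_mem _ _ (C.gr Z i a ha)

/-- The additive map. -/
noncomputable def ψ (Z : 𝒱.Obj) : (baseW W V.K).H Z →+ V.H Z := (C.Φ hι Z).toAddMonoidHom

lemma Φ_gr' {i : ℕ} {a : V.K ⊗[W.K] W.H Z} (ha : C.Φ hι Z a ∈ V.gr Z i) :
    a ∈ (W.gr Z i).baseChange V.K := by
  have hint := (baseW W V.K).isInternal Z
  have h1 : ∀ b : (baseW W V.K).H Z, C.ψ hι Z (H914.proj hint i b) =
      H914.proj (V.isInternal Z) i (C.ψ hι Z b) := by
    intro b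
    refine gr_induction hint (p := fun b => C.ψ hι Z (H914.proj hint i b) =
      H914.proj (V.isInternal Z) i (C.ψ hι Z b)) ?_ ?_ b
    · intro j c hc
      have hb : C.ψ hι Z c ∈ V.gr Z j := C.Φ_gr hι hc
      by_cases hij : j = i
      · subst hij
        rw [proj_same hint hc, proj_same (V.isInternal Z) hb]
      · rw [proj_ne hint hc hij, proj_ne (V.isInternal Z) hb hij, map_zero]
    · intro c d hc hd
      rw [map_add, map_add, map_add, map_add, hc, hd]
  have h2 := h1 a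
  have ha' : C.ψ hι Z a ∈ V.gr Z i := ha
  rw [proj_same (V.isInternal Z) ha'] at h2
  have h3 : H914.proj hint i a = a := C.Φ_inj hι Z h2
  have h4 := H914.proj_mem hint i a
  rw [h3] at h4
  exact h4

/-- The transported property. -/
noncomputable def pull (Q : ClassPred V) : ClassPred (baseW W V.K) where
  P Z j a := Q.P Z j (C.Φ hι Z a)
  gr {Z j a} h := C.Φ_gr' hι (Q.gr h)
  zero {Z j} := by
    change Q.P Z j (C.ψ hι Z 0)
    rw [map_zero]; exact Q.zero
  add {Z j a b} ha hb := by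
    change Q.P Z j (C.ψ hι Z (a + b))
    rw [map_add]; exact Q.add ha hb
  smul {Z j} r {a} ha := by
    have h1 : C.ψ hι Z (r • a) = (show V.K from r) • C.ψ hι Z a :=
      map_smul (C.Φ hι Z) (show V.K from r) (show V.K ⊗[W.K] W.H Z from a)
    change Q.P Z j (C.ψ hι Z (r • a))
    rw [h1]; exact Q.smul _ ha
  cl {Z j z} hz := by
    have h1 : C.ψ hι Z ((baseW W V.K).cl Z z) = V.cl Z z := by
      have h2 : C.Φ hι Z ((1 : V.K) ⊗ₜ[W.K] W.cl Z z) = V.cl Z z := by
        rw [Φ_tmul, one_smul, C.cl']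
      exact h2
    have h3 : Q.P Z j (C.ψ hι Z ((baseW W V.K).cl Z z)) := by rw [h1]; exact Q.cl hz
    exact h3
  mul {Z i j a b} ha hb := by
    have h1 : C.ψ hι Z (a * b) = C.ψ hι Z a * C.ψ hι Z b := C.Φ_mul hι a b
    change Q.P Z _ (C.ψ hι Z _)
    rw [h1]; exact Q.mul ha hb
  map {X Y} f {j a} ha := by
    have h1 : C.ψ hι X ((baseW W V.K).map f a) = V.map f (C.ψ hι Y a) := C.Φ_map hι f a
    change Q.P X _ (C.ψ hι X _)
    rw [h1]; exact Q.map f ha
  push {X Y} f {j l} hl {a} ha := by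
    have h1 : C.ψ hι Y ((baseW W V.K).push f a) = V.push f (C.ψ hι X a) := C.Φ_push hι f a
    change Q.P Y _ (C.ψ hι Y _)
    rw [h1]; exact Q.push f hl ha

lemma dimBy_pull (Q : ClassPred V) (Z : 𝒱.Obj) :
    dimBy (baseW W V.K) (C.pull hι Q).P Z = dimBy V Q.P Z := by
  let e : (V.K ⊗[W.K] W.H Z) ≃ₗ[V.K] V.H Z :=
    LinearEquiv.ofBijective (C.Φ hι Z) ⟨C.Φ_inj hι Z, C.Φ_surj hι Z⟩
  have h1 : (Submodule.span V.K {a : V.K ⊗[W.K] W.H Z | ∃ j, Q.P Z j (C.Φ hι Z a)}).map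
      (e : V.K ⊗[W.K] W.H Z →ₗ[V.K] V.H Z) = Submodule.span V.K {c | ∃ j, Q.P Z j c} := by
    rw [Submodule.map_span]
    congr 1
    ext c
    constructor
    · rintro ⟨a, ⟨j, hj⟩, rfl⟩
      exact ⟨j, hj⟩
    · rintro ⟨j, hj⟩
      obtain ⟨a, rfl⟩ := C.Φ_surj hι Z c
      exact ⟨a, ⟨j, hj⟩, rfl⟩
  have h2 : finrank V.K (Submodule.span V.K
      {a : V.K ⊗[W.K] W.H Z | ∃ j, Q.P Z j (C.Φ hι Z a)}) =
      finrank V.K (Submodule.span V.K {c | ∃ j, Q.P Z j c}) := by
    rw [← h1]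
    exact (LinearEquiv.finrank_map_eq e _).symm
  exact h2

end Phi

section Law

variable {T : AHS.HodgeTheory ops} {V : WeilCohomology.{u, 0} ops} {X Z : 𝒱.Obj}

/-- **The zero-one law for a property of classes of a second cohomology theory which holds for the
Hodge classes on the powers.** -/
theorem zero_one (C : Comparison T.W V) (Q : ClassPred V) [Nontrivial (T.W.H X)]
    (h : ∀ n j (c : T.W.H (pw X n)), AHS.IsHodge T (pw X n) j c →
      Q.P (pw X n) j (C.em (pw X n) c)) :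
    (∀ n j c, Q.P (pw X n) j c → c ∈ hodgeSpan C (pw X n)) ∨
      Tendsto (fun n => (dimBy T.W (AHS.IsHodge T) (pw X n) : ℝ) /
        dimBy V Q.P (pw X n)) atTop (𝓝 0) := by
  letI : Algebra T.W.K V.K := C.rh.toAlgebra
  have hι : ∀ r, C.ι r = algebraMap T.W.K V.K r := fun r => rfl
  have h1 : ∀ n j (c : T.W.H (pw X n)), AHS.IsHodge T (pw X n) j c →
      (C.pull hι Q).P (pw X n) j (emb T V.K c) := by
    intro n j c hc
    have h2 : C.Φ hι (pw X n) ((1 : V.K) ⊗ₜ[T.W.K] c) = C.em (pw X n) c := by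
      rw [Φ_tmul, one_smul]
    change Q.P (pw X n) j (C.Φ hι (pw X n) ((1 : V.K) ⊗ₜ[T.W.K] c))
    rw [h2]
    exact h n j c hc
  rcases zero_one_pred_base (L := V.K) (X := X) (C.pull hι Q) h1 with h2 | h2
  · left
    intro n j c hc
    obtain ⟨a, rfl⟩ := C.Φ_surj hι (pw X n) c
    have h3 : a ∈ hSpan T V.K (pw X n) := h2 n j a hc
    have h4 : hSpan T V.K (pw X n) ≤ (hodgeSpan C (pw X n)).comap (C.Φ hι (pw X n)) := by
      refine Submodule.span_le.2 ?_
      rintro _ ⟨i, x, hx, rfl⟩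
      have h5 : C.Φ hι (pw X n) ((1 : V.K) ⊗ₜ[T.W.K] x) = C.em (pw X n) x := by
        rw [Φ_tmul, one_smul]
      change C.Φ hι (pw X n) ((1 : V.K) ⊗ₜ[T.W.K] x) ∈ hodgeSpan C (pw X n)
      rw [h5]
      exact Submodule.subset_span ⟨i, x, hx, rfl⟩
    exact h4 h3
  · right
    simp only [dimBy_pull] at h2
    exact h2

/-- Classes of cycles. -/
lemma em_alg {W V : WeilCohomology.{u, v} ops} (C : Comparison W V) {Z : 𝒱.Obj} {j : ℕ}
    {c : W.H Z} (hc : c ∈ spanCycles W Z j) : C.em Z c ∈ spanCycles V Z j := by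
  induction hc using Submodule.span_induction with
  | mem x hx =>
    obtain ⟨p, hp, z, hz, rfl⟩ := hx
    exact Submodule.subset_span ⟨p, hp, z, hz, (C.cl' Z z).symm⟩
  | zero =>
    have h2 : C.em Z 0 = 0 := by
      have h3 := C.smul Z 0 0
      rwa [C.hom.1, zero_smul, zero_smul] at h3
    rw [h2]; exact Submodule.zero_mem _
  | add a b _ _ ha hb => rw [C.add]; exact Submodule.add_mem _ ha hb
  | smul t a _ ha => rw [C.smul]; exact Submodule.smul_mem _ _ ha

/-- If the Hodge conjecture holds, the combinations of Hodge classes are combinations of the classes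
of algebraic cycles. -/
lemma mem_spanCycles {C : Comparison T.W V}
    (h : ∀ j (c : T.W.H Z), AHS.IsHodge T Z j c → c ∈ spanCycles T.W Z j) {j : ℕ}
    {c : V.H Z} (hc : c ∈ hodgeSpan C Z) (hj : c ∈ V.gr Z (2 * j)) : c ∈ spanCycles V Z j := by
  refine spanCycles_of_algSpan ?_ hj
  refine (Submodule.span_le.2 ?_ : hodgeSpan C Z ≤ algSpan V Z) hc
  rintro _ ⟨i, c, hc, rfl⟩
  exact Pool.Agent.Y129.span_le_algSpan i (C.em_alg (h i c hc))

end Law

end Comparison

end Pool.Agent.Q69.ZO
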