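import Pool.Agent.Y121.AHS.Defs

/-!
# Comparison of cohomology theories, Galois actions and Tate classes: definitions

In the intended use `k` is the algebraic closure of a finitely generated field `k₀` of
characteristic zero, `W` is the Betti cohomology for an embedding of `k` into the complex numbers,
`V` is the `ℓ`-adic cohomology, `Γ` is the Galois group of `k₀` and `χ` the character by which it
acts on `ℚ_ℓ(-1)`. A variety `Z` over `k` has a model over a finite extension `k'` of `k₀`, and
`act Z g` is the action of `g` on the cohomology of `Z` for `g` in the Galois group of `k'`.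
-/

open CategoryTheory AlgebraicGeometry

universe u v w

namespace Pool.Agent.Q69.ZO

open Pool.Agent.H914 Pool.Agent.H914.VarClass Pool.Agent.H914.VarClass.Obj
  Pool.Agent.H914.WeilCohomology

section Maps

variable {K L A B : Type*} [Field K] [Field L] [Ring A] [Algebra K A] [Ring B] [Algebra L B]

/-- The map `f` is a ring homomorphism (perhaps not unital), semilinear for the map `ι` of the
coefficients. -/
def IsSemi (ι : K → L) (f : A → B) : Prop :=
  (∀ x y, f (x + y) = f x + f y) ∧ (∀ x y, f (x * y) = f x * f y) ∧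
    ∀ (r : K) x, f (r • x) = ι r • f x

variable (K L) in
/-- The `L`-algebra `B` is spanned by the image of `f` and has the dimension of the
`K`-algebra `A`. -/
def IsExt (f : A → B) : Prop :=
  Submodule.span L (Set.range f) = ⊤ ∧ Module.finrank L B = Module.finrank K A

/-- The map `ι` is a homomorphism of fields. -/
def IsFieldHom (ι : K → L) : Prop :=
  ι 0 = 0 ∧ ι 1 = 1 ∧ (∀ r s, ι (r + s) = ι r + ι s) ∧ ∀ r s, ι (r * s) = ι r * ι s

/-- The number `r` is not zero. -/
def NonZero (r : K) : Prop := r ≠ 0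

/-- The element `y` is `r ^ j x`. -/
def Scales (r : K) (j : ℕ) (x y : A) : Prop := y = r ^ j • x

/-- The number `t` is `r ^ j s`. -/
def ScalesNum (r : K) (j : ℕ) (s t : K) : Prop := t = r ^ j * s

end Maps

variable {k : Type u} [Field k] {𝒱 : VarClass k} {ops : CycleOps 𝒱}

/-- The pull-back of a class. -/
def pullBack (V : WeilCohomology.{u, v} ops) {Y Z : 𝒱.Obj} (f : Y ⟶ Z) (x : V.H Z) : V.H Y :=
  V.map f x

/-- The degree (trace) of a class. -/
def deg (V : WeilCohomology.{u, v} ops) {Z : 𝒱.Obj} (x : V.H Z) : V.K := V.tr Z x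

/-- The class of a cycle. -/
noncomputable def cyc (V : WeilCohomology.{u, v} ops) {Z : 𝒱.Obj} (z : Z.Cycles) : V.H Z := V.cl Z z

/-- The class `x` is homogeneous of degree `i`. -/
def HasDeg (V : WeilCohomology.{u, v} ops) {Z : 𝒱.Obj} (i : ℕ) (x : V.H Z) : Prop := x ∈ V.gr Z i

/-- A comparison of the cohomology theory `W` with the cohomology theory `V`, whose coefficient field
is an extension of the coefficient field of `W` (Artin's comparison theorem). -/
structure Comparison (W V : WeilCohomology.{u, v} ops) where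
  /-- the inclusion of the coefficients -/
  ι : W.K → V.K
  hom : IsFieldHom ι
  /-- the class `x` as a class of the other theory -/
  em : ∀ Z : 𝒱.Obj, W.H Z → V.H Z
  semi : ∀ Z, IsSemi ι (em Z)
  isExt : ∀ Z, IsExt W.K V.K (em Z)
  gr : ∀ Z i x, HasDeg W i x → HasDeg V i (em Z x)
  map : ∀ {Y Z : 𝒱.Obj} (f : Y ⟶ Z) x, em Y (pullBack W f x) = pullBack V f (em Z x)
  tr : ∀ Z x, deg V (em Z x) = ι (deg W x)
  cl : ∀ Z z, em Z (cyc W z) = cyc V z

/-- The property `p` holds for all elements of a subgroup of finite index. -/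
def Near {Γ : Type w} [Group Γ] (p : Γ → Prop) : Prop :=
  ∃ U : Subgroup Γ, U.FiniteIndex ∧ ∀ g ∈ U, p g

/-- A Galois action on the cohomology. -/
structure GalAct (V : WeilCohomology.{u, v} ops) (Γ : Type w) [Group Γ] where
  /-- the character by which the Galois group acts on the Tate twist `V.K(-1)` -/
  χ : Γ → V.K
  ne : ∀ g, NonZero (χ g)
  /-- the action on the cohomology -/
  act : ∀ Z : 𝒱.Obj, Γ → V.H Z → V.H Z
  semi : ∀ Z g, IsSemi (id : V.K → V.K) (act Z g)
  inv : ∀ Z, Near fun g : Γ => ∀ x, act Z g (act Z g⁻¹ x) = x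
  map : ∀ {Y Z : 𝒱.Obj} (f : Y ⟶ Z),
    Near fun g : Γ => ∀ x, act Y g (pullBack V f x) = pullBack V f (act Z g x)
  tr : ∀ Z, Near fun g : Γ => ∀ x, ScalesNum (χ g) Z.dim (deg V x) (deg V (act Z g x))
  cl : ∀ (Z : 𝒱.Obj) (j : ℕ) (z : Z.Cycles), Z.IsCyc j z →
    Near fun g : Γ => Scales (χ g) j (cyc V z) (act Z g (cyc V z))

/-- The Tate classes of codimension `j`: the classes `c` in `H^(2 j)` such that `g c = χ(g)^j c` for
all `g` in a subgroup of finite index. -/
def GalAct.IsTate {V : WeilCohomology.{u, v} ops} {Γ : Type w} [Group Γ] (G : GalAct V Γ)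
    (Z : 𝒱.Obj) (j : ℕ) (c : V.H Z) : Prop :=
  HasDeg V (2 * j) c ∧ Near fun g : Γ => Scales (G.χ g) j c (G.act Z g c)

/-- The combinations of Hodge classes in the cohomology theory `V`. -/
def hodgeSpan {T : Pool.Agent.Y121.AHS.HodgeTheory ops} {V : WeilCohomology.{u, 0} ops}
    (C : Comparison T.W V) (Z : 𝒱.Obj) : Submodule V.K (V.H Z) :=
  Submodule.span V.K {x | ∃ j c, Pool.Agent.Y121.AHS.IsHodge T Z j c ∧ C.em Z c = x}

end Pool.Agent.Q69.ZO
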