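import Pool.Agent.Q69.ZO.GDefs
import Pool.Agent.Q69.ZO.Base

/-!
# The system of the Tate classes, and the comparison of cohomology theories
-/

set_option autoImplicit false
set_option linter.unusedSectionVars false

open CategoryTheory AlgebraicGeometry TensorProduct Filter Topology Module

universe u v w

namespace Pool.Agent.Q69.ZO

open Pool.Agent.H914 Pool.Agent.H914.VarClass Pool.Agent.H914.VarClass.Obj
  Pool.Agent.H914.WeilCohomology
open Pool.Agent.Y133.Half hiding prj extOp_xp pd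
open Pool.Agent.Y121 Pool.Agent.H281R3.HT Pool.Agent.W536.RR

section Near

variable {Γ : Type w} [Group Γ] {p q r : Γ → Prop}

lemma Near.of (h : ∀ g, p g) : Near p := ⟨⊤, inferInstance, fun g _ => h g⟩

lemma Near.mono (hp : Near p) (h : ∀ g, p g → q g) : Near q := by
  obtain ⟨U, hU, h1⟩ := hp
  exact ⟨U, hU, fun g hg => h g (h1 g hg)⟩

lemma Near.and (hp : Near p) (hq : Near q) : Near fun g => p g ∧ q g := by
  obtain ⟨U, hU, h1⟩ := hp
  obtain ⟨V, hV, h2⟩ := hq
  exact ⟨U ⊓ V, inferInstance, fun g hg => ⟨h1 g hg.1, h2 g hg.2⟩⟩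

lemma Near.inv (hp : Near p) : Near fun g => p g⁻¹ := by
  obtain ⟨U, hU, h1⟩ := hp
  exact ⟨U, hU, fun g hg => h1 _ (U.inv_mem hg)⟩

end Near

variable {k : Type u} [Field k] {𝒱 : VarClass k} {ops : CycleOps 𝒱}

section Gal

variable {V : WeilCohomology.{u, v} ops} {Γ : Type w} [Group Γ] (G : GalAct V Γ)

namespace GalAct

variable {G} {X Y : 𝒱.Obj} {i j l : ℕ} {a b : V.H X}

lemma act_add (Z : 𝒱.Obj) (g : Γ) (x y : V.H Z) :
    G.act Z g (x + y) = G.act Z g x + G.act Z g y := (G.semi Z g).1 x y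

lemma act_mul (Z : 𝒱.Obj) (g : Γ) (x y : V.H Z) :
    G.act Z g (x * y) = G.act Z g x * G.act Z g y := (G.semi Z g).2.1 x y

lemma act_smul (Z : 𝒱.Obj) (g : Γ) (r : V.K) (x : V.H Z) :
    G.act Z g (r • x) = r • G.act Z g x := (G.semi Z g).2.2 r x

lemma act_zero (Z : 𝒱.Obj) (g : Γ) : G.act Z g 0 = 0 := by
  have h := act_smul (G := G) Z g 0 0
  rwa [zero_smul, zero_smul] at h

lemma act_map (f : X ⟶ Y) : Near fun g : Γ => ∀ x, G.act X g (V.map f x) = V.map f (G.act Y g x) :=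
  G.map f

lemma act_tr (Z : 𝒱.Obj) :
    Near fun g : Γ => ∀ x, V.tr Z (G.act Z g x) = G.χ g ^ Z.dim * V.tr Z x := G.tr Z

lemma isTate_iff {Z : 𝒱.Obj} {c : V.H Z} : G.IsTate Z j c ↔
    c ∈ V.gr Z (2 * j) ∧ Near fun g : Γ => G.act Z g c = G.χ g ^ j • c := Iff.rfl

lemma IsTate.zero : G.IsTate X j 0 :=
  isTate_iff.2 ⟨Submodule.zero_mem _, Near.of fun g => by rw [act_zero, smul_zero]⟩

lemma IsTate.add (ha : G.IsTate X j a) (hb : G.IsTate X j b) : G.IsTate X j (a + b) := by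
  rw [isTate_iff] at *
  exact ⟨Submodule.add_mem _ ha.1 hb.1, (ha.2.and hb.2).mono fun g h => by
    rw [act_add, h.1, h.2, smul_add]⟩

lemma IsTate.smul (r : V.K) (ha : G.IsTate X j a) : G.IsTate X j (r • a) := by
  rw [isTate_iff] at *
  exact ⟨Submodule.smul_mem _ _ ha.1, ha.2.mono fun g h => by
    rw [act_smul, h, smul_comm]⟩

lemma IsTate.cl {z : X.Cycles} (hz : X.IsCyc j z) : G.IsTate X j (V.cl X z) :=
  ⟨V.cl_mem hz, G.cl X j z hz⟩

lemma IsTate.mul (ha : G.IsTate X i a) (hb : G.IsTate X j b) : G.IsTate X (i + j) (a * b) := by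
  rw [isTate_iff] at *
  refine ⟨?_, (ha.2.and hb.2).mono fun g h => ?_⟩
  · have := V.mul_mem ha.1 hb.1
    rwa [show 2 * i + 2 * j = 2 * (i + j) by ring] at this
  · rw [act_mul, h.1, h.2, smul_mul_smul_comm, pow_add]

lemma IsTate.map (f : X ⟶ Y) {a : V.H Y} (ha : G.IsTate Y j a) : G.IsTate X j (V.map f a) := by
  rw [isTate_iff] at *
  exact ⟨V.map_mem f ha.1, (ha.2.and (act_map f)).mono fun g h => by rw [h.2, h.1, map_smul]⟩

lemma IsTate.push (f : X ⟶ Y) (hl : l + X.dim = j + Y.dim) (ha : G.IsTate X j a) :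
    G.IsTate Y l (V.push f a) := by
  rw [isTate_iff] at *
  refine ⟨?_, ?_⟩
  · have h2 := V.push_mem f ha.1
    have e1 : ((2 * j : ℕ) : ℤ) + 2 * ((Y.dim : ℤ) - X.dim) = ((2 * l : ℕ) : ℤ) := by
      push_cast; omega
    rw [e1, grZ_natCast] at h2
    exact h2
  · refine ((((((ha.2.and (act_map (G := G) f).inv).and (G.inv Y)).and (G.inv X)).and
      (act_tr (G := G) X)).and (act_tr (G := G) Y))).mono ?_
    rintro g ⟨⟨⟨⟨⟨h1, h2⟩, h3⟩, h4⟩, h5⟩, h6⟩
    apply V.tr_ext
    intro c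
    have e1 : G.act Y g (V.push f a) * c = G.act Y g (V.push f a * G.act Y g⁻¹ c) := by
      rw [act_mul, h3]
    have e2 : G.χ g ^ X.dim * V.tr X (a * G.act X g⁻¹ (V.map f c)) =
        G.χ g ^ j * V.tr X (a * V.map f c) := by
      rw [← h5, act_mul, h4, h1, smul_mul_assoc, map_smul, smul_eq_mul]
    rw [e1, h6, V.tr_push, ← h2, smul_mul_assoc, map_smul, smul_eq_mul, V.tr_push]
    have hne : G.χ g ≠ 0 := G.ne g
    apply mul_left_cancel₀ (pow_ne_zero X.dim hne)
    rw [mul_left_comm, e2, ← mul_assoc, ← mul_assoc, ← pow_add, ← pow_add]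
    congr 2
    omega

variable (G)

/-- The Tate classes. -/
def pred : ClassPred V where
  P := G.IsTate
  gr h := h.1
  zero := IsTate.zero
  add := IsTate.add
  smul r _ h := IsTate.smul r h
  cl := IsTate.cl
  mul := IsTate.mul
  map f _ _ h := IsTate.map f h
  push f _ _ hl _ h := IsTate.push f hl h

end GalAct

end Gal

section Law

variable {T : AHS.HodgeTheory ops} {X Z : 𝒱.Obj} {L : Type} [Field L] [Algebra T.W.K L]

/-- The class `c` with coefficients in `L`. -/
noncomputable def emb (T : AHS.HodgeTheory ops) (L : Type) [Field L] [Algebra T.W.K L]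
    (c : T.W.H Z) : (baseW T.W L).H Z := (1 : L) ⊗ₜ[T.W.K] c

/-- The combinations of Hodge classes. -/
noncomputable def hSpan (T : AHS.HodgeTheory ops) (L : Type) [Field L] [Algebra T.W.K L]
    (Z : 𝒱.Obj) : Submodule (baseW T.W L).K ((baseW T.W L).H Z) :=
  Submodule.span (baseW T.W L).K {x | ∃ j c, AHS.IsHodge T Z j c ∧ emb T L c = x}

lemma hSpan_eq (Z : 𝒱.Obj) :
    hSpan T L Z = ((AH.hodgeSys (AHS.toH T)).base L).C Z := by
  apply le_antisymm
  · refine Submodule.span_le.2 ?_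
    rintro _ ⟨j, c, hc, rfl⟩
    exact Submodule.tmul_mem_baseChange_of_mem (1 : L)
      (ClassPred.sp_of (Q := AH.hodgePred (AHS.toH T)) hc)
  · intro x hx
    have hx' := Pool.Agent.Q67.TG.mem_base.1 hx
    refine (Submodule.span_le.2 ?_ : Submodule.span (baseW (AHS.toH T).W L).K
      (AH.em (AHS.toH T).W L '' ((AH.hodgeSys (AHS.toH T)).C Z : Set ((AHS.toH T).W.H Z))) ≤
        (show Submodule (baseW (AHS.toH T).W L).K ((baseW (AHS.toH T).W L).H Z) from
          hSpan T L Z)) hx'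
    rintro _ ⟨a, ha, rfl⟩
    refine ClassPred.sp_ind (Q := AH.hodgePred (AHS.toH T))
      (q := fun a => AH.em (AHS.toH T).W L a ∈ hSpan T L Z) ?_ ?_ ?_ ha
    · intro j x hx
      exact Submodule.subset_span ⟨j, x, hx, rfl⟩
    · rw [AH.em_zero]; exact Submodule.zero_mem _
    · intro a b ha hb
      rw [AH.em_add]; exact Submodule.add_mem _ ha hb

/-- **The zero-one law for a property of classes with extended coefficients which holds for the
Hodge classes on the powers.** -/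
theorem zero_one_pred_base (Q : ClassPred (baseW T.W L)) [Nontrivial (T.W.H X)]
    (h : ∀ n j (c : T.W.H (pw X n)), AHS.IsHodge T (pw X n) j c → Q.P (pw X n) j (emb T L c)) :
    (∀ n j (c : (baseW T.W L).H (pw X n)), Q.P (pw X n) j c → c ∈ hSpan T L (pw X n)) ∨
      Tendsto (fun n => (dimBy T.W (AHS.IsHodge T) (pw X n) : ℝ) /
        dimBy (baseW T.W L) Q.P (pw X n)) atTop (𝓝 0) := by
  have h0 : Nontrivial ((AHS.toH T).W.H X) := (inferInstance : Nontrivial (T.W.H X))
  have h1 : ∀ n, ((AH.hodgeSys (AHS.toH T)).base L).C (pw X n) ≤ Q.sys.C (pw X n) := by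
    intro n
    rw [← hSpan_eq]
    refine Submodule.span_le.2 ?_
    rintro _ ⟨j, c, hc, rfl⟩
    exact ClassPred.sp_of (Q := Q) (h n j c hc)
  rcases zero_one_base (T := AHS.toH T) (R := Q.sys) (X := X) (L := L) h1 with h2 | h2
  · left
    intro n j c hc
    rw [hSpan_eq, ← h2 n]
    exact ClassPred.sp_of (Q := Q) hc
  · right
    exact h2

end Law

end Pool.Agent.Q69.ZO
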