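import Pool.Agent.Q69.ZO.Comm
import Pool.Agent.Q67.TG.Main3
import Pool.Agent.Y133.Half.PairGen

/-!
# Finite generation implies the infinitesimal criterion, for two systems of classes

Adapted from `Pool.Agent.Q67.TG.Main3` (Hodge classes).
-/

set_option autoImplicit false
set_option linter.unusedSectionVars false

open CategoryTheory AlgebraicGeometry TensorProduct

universe u v

namespace Pool.Agent.Q69.ZO

open Pool.Agent.H914 Pool.Agent.H914.VarClass Pool.Agent.H914.VarClass.Obj
  Pool.Agent.H914.WeilCohomology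
open Pool.Agent.Y133.Half hiding prj extOp_xp
open Pool.Agent.Q67.Det Pool.Agent.Q67.TK Pool.Agent.Q67.TG
open scoped Matrix

variable {k : Type u} [Field k] {𝒱 : VarClass k} {ops : CycleOps 𝒱}
variable {W : WeilCohomology.{u, v} ops} [CharZero W.K] {X Y Z : 𝒱.Obj}

omit [CharZero W.K] in
lemma Cs_tpow {S : Sys W} {n : ℕ} {v : Module.Basis (Fin n) W.K (W.H X)} {m : ℕ}
    {F : (Fin m → Fin n) → W.K} (hF : F ∈ Cs S v m) : ∀ k, tpow F k ∈ Cs S v (len m k)
  | 0 => mem_Cs_zero _
  | k + 1 => Cs_tens (Cs_tpow hF k) hF

/-- **Finite generation implies the infinitesimal criterion.** -/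
theorem kill_of_generated {S R : Sys W} (P : OddIn S X) {r : ℕ} {c : Fin r → Σ m, W.H (pw X m)}
    (hg : ∀ m, R.C (pw X m) ≤ S.genS X c m) {A : Module.End W.K (W.H X)}
    (hA : ∀ m, ∀ c ∈ S.C (pw X m), derOp A m c = 0) :
    ∀ m, ∀ c ∈ R.C (pw X m), derOp A m c = 0 := by
  classical
  obtain ⟨n, v, d, hd⟩ := exists_homog_basis W X
  set Ci : ∀ i : Fin r, (Fin ((c i).1 + 1) → Fin n) → W.K := fun i =>
    (PPe v (c i).1).symm (c i).2 with hCi
  have hCi' : ∀ i, PP v (Pool.Agent.Q67.Det.prj X (c i).1) (Ci i) = (c i).2 := fun i =>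
    (PPe v (c i).1).apply_symm_apply _
  set f : Option (Σ i : Fin r, (Fin ((c i).1 + 1) → Fin n)) → PowerSeries W.K := fun o =>
    match o with
    | none => 1
    | some p => gs ((c p.1).1 + 1) (mt v A) (Ci p.1) p.2 with hf
  set Φ : Submodule W.K (PowerSeries W.K) := Submodule.span W.K (Set.range f) with hΦ
  have hfin : Module.Finite W.K Φ := FiniteDimensional.span_of_finite W.K (Set.finite_range f)
  have h1Φ : (1 : PowerSeries W.K) ∈ Φ := Submodule.subset_span ⟨none, rfl⟩
  have hCΦ : ∀ i J, gs ((c i).1 + 1) (mt v A) (Ci i) J ∈ Φ := fun i J =>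
    Submodule.subset_span ⟨some ⟨i, J⟩, rfl⟩
  -- the exponentials of the classes
  have key : ∀ l, ∀ F ∈ Cs R v l, ∀ I, gs l (mt v A) F I ∈ Φ := by
    intro l F hF I
    cases l with
    | zero =>
      have h1 : (dM 0 (mt v A)).mulVec F = 0 := by
        funext I
        simp [dM_mulVec]
      rw [gs_of_kill h1]
      exact Submodule.smul_mem _ _ h1Φ
    | succ m =>
      have h1 := mem_Cs_succ.1 hF
      let U : Submodule W.K (W.H (pw X m)) :=
        { carrier := {y | ∀ G, PP v (Pool.Agent.Q67.Det.prj X m) G = y → ∀ I, gs (m + 1) (mt v A) G I ∈ Φ}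
          zero_mem' := by
            intro G hG I
            have h4 : G = 0 := PP_inj v (hG.trans (PP_zero _).symm)
            rw [h4, gs_zero]
            exact Submodule.zero_mem _
          add_mem' := by
            intro x y hx hy G hG I
            obtain ⟨G1, hG1⟩ := PP_surj v x
            obtain ⟨G2, hG2⟩ := PP_surj v y
            have h4 : G = G1 + G2 := by
              apply PP_inj v
              rw [hG, PP_add, hG1, hG2]
            rw [h4, gs_add]
            exact Submodule.add_mem _ (hx G1 hG1 I) (hy G2 hG2 I)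
          smul_mem' := by
            intro a x hx G hG I
            obtain ⟨G1, hG1⟩ := PP_surj v x
            have h4 : G = a • G1 := by
              apply PP_inj v
              rw [hG, PP_smul, hG1]
            rw [h4, gs_smul]
            exact Submodule.smul_mem _ _ (hx G1 hG1 I) }
      have hU : S.genS X c m ≤ U := by
        apply sup_le
        · intro y hy G hG I
          have h4 : derOp A m y = 0 := hA m y hy
          have h5 : (dM (m + 1) (mt v A)).mulVec G = 0 := by
            rw [← hG, derOp_PP] at h4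
            exact PP_inj v (h4.trans (PP_zero _).symm)
          rw [gs_of_kill h5]
          exact Submodule.smul_mem _ _ h1Φ
        · apply iSup_le
          rintro i _ ⟨φ, hφ, rfl⟩ G hG I
          have hφ' : φ ∈ S.Op (pw X (c i).1) (pw X m) := hφ
          have h4 : G = (mtP v φ).mulVec (Ci i) := by
            apply PP_inj v
            rw [hG, mtP_spec, hCi']
            rfl
          rw [h4, gs_comm (mtP_comm v (P.comm_corr hA hφ'))]
          exact Submodule.sum_mem _ fun J _ => Submodule.smul_mem _ _ (hCΦ i J)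
      exact hU (hg m h1) F rfl I
  intro m y hy
  obtain ⟨F, rfl⟩ := PP_surj v y
  have hF : F ∈ Cs R v (m + 1) := mem_Cs_succ.2 hy
  have h1 : (dM (m + 1) (mt v A)).mulVec F = 0 := by
    apply kill_of_const
    intro I
    apply const_of_pow (Φ := Φ)
    intro k
    rw [← gs_tpow]
    exact key _ _ (Cs_tpow hF k) _
  rw [derOp_PP, h1, PP_zero]

end Pool.Agent.Q69.ZO
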