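import Pool.Agent.Q69.ZO.Kill

/-!
# The zero-one law for two systems of classes
-/

set_option autoImplicit false
set_option linter.unusedSectionVars false

open CategoryTheory AlgebraicGeometry TensorProduct Filter Topology Module

open scoped ENNReal

universe u v

namespace Pool.Agent.Q69.ZO

open Pool.Agent.H914 Pool.Agent.H914.VarClass Pool.Agent.H914.VarClass.Obj
  Pool.Agent.H914.WeilCohomology
open Pool.Agent.Y133.Half hiding prj extOp_xp
open Pool.Agent.Q67.Det Pool.Agent.Q67.TK Pool.Agent.Q67.TG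

variable {k : Type u} [Field k] {𝒱 : VarClass k} {ops : CycleOps 𝒱}
variable {W : WeilCohomology.{u, v} ops} [CharZero W.K] {X Y Z : 𝒱.Obj}

/-- The classes of `R` on the powers of `X` which are killed by all operators (as derivations) which
kill the classes of `S` on all powers of `X`, are classes of `S`. -/
def Closed (S R : Sys W) (X : 𝒱.Obj) : Prop :=
  ∀ n, ∀ c ∈ R.C (pw X n), (∀ A : Module.End W.K (W.H X),
    (∀ m, ∀ s ∈ S.C (pw X m), derOp A m s = 0) → derOp A n c = 0) → c ∈ S.C (pw X n)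

/-- **The zero-one law.** -/
theorem zero_one {S R : Sys W} [Nontrivial (W.H X)] (hnd : ∀ n, Sys.Nondeg S (pw X n))
    (P : OddIn S X) (hstab : S.Stab X fun n => R.C (pw X n))
    (hle : ∀ n, S.C (pw X n) ≤ R.C (pw X n)) (hcl : Closed S R X) :
    (∀ n, R.C (pw X n) = S.C (pw X n)) ∨
      Tendsto (fun n => (finrank W.K (S.C (pw X n)) : ℝ) / finrank W.K (R.C (pw X n))) atTop
        (𝓝 0) := by
  obtain ⟨N, h1, h2, -, h4⟩ := Sys.stab_index hnd hstab hle
  by_cases hN : N = ⊤
  · right
    have hpos : ∀ n, 0 < finrank W.K (S.C (pw X n)) := S.finrank_pos_pw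
    have h3 : Tendsto (fun n => (finrank W.K (R.C (pw X n)) : ℝ≥0∞) /
        finrank W.K (S.C (pw X n))) atTop (𝓝 ⊤) := by
      have h5 : S.IsInd X (fun n => R.C (pw X n)) ⊤ := hN ▸ h2
      exact h5
    have h5 := (ENNReal.tendsto_inv_iff (a := (⊤ : ℝ≥0∞))).2 h3
    rw [ENNReal.inv_top] at h5
    have h6 := (ENNReal.tendsto_toReal (a := (0 : ℝ≥0∞)) ENNReal.zero_ne_top).comp h5
    rw [ENNReal.toReal_zero] at h6
    refine h6.congr fun n => ?_
    have e0 : ((finrank W.K (S.C (pw X n)) : ℕ) : ℝ≥0∞) ≠ 0 := by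
      exact_mod_cast (hpos n).ne'
    rw [Function.comp_apply, ENNReal.inv_div (Or.inl (ENNReal.natCast_ne_top _))
      (Or.inl e0), ENNReal.toReal_div, ENNReal.toReal_natCast, ENNReal.toReal_natCast]
  · left
    obtain ⟨r, c, -, -, hG⟩ := Sys.ind_generators hnd hstab hle h2 hN
      (fun n => (R.C (pw X n) : Set _)) fun n => (Submodule.span_eq _).symm
    intro n
    refine le_antisymm (fun y hy => hcl n y hy fun A hA => ?_) (hle n)
    exact kill_of_generated P (fun m => (hG m).le) hA n y hy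

end Pool.Agent.Q69.ZO
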