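import Pool.Agent.Q69.ZO.Hodge
import Pool.Agent.Y133.Half.PairPred
import Pool.Agent.Y121.AHS.Conv

/-!
# The zero-one law for a property of classes which holds for the Hodge classes
-/

set_option autoImplicit false
set_option linter.unusedSectionVars false

open CategoryTheory AlgebraicGeometry TensorProduct Filter Topology Module

universe u v

namespace Pool.Agent.Q69.ZO

open Pool.Agent.H914 Pool.Agent.H914.VarClass Pool.Agent.H914.VarClass.Obj
  Pool.Agent.H914.WeilCohomology
open Pool.Agent.Y133.Half hiding prj extOp_xp pd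
open Pool.Agent.Q67.Det Pool.Agent.Q67.TK Pool.Agent.Q67.TG
open Pool.Agent.Y121 Pool.Agent.H281R3.HT

variable {k : Type u} [Field k] {𝒱 : VarClass k} {ops : CycleOps 𝒱}

section Stab

variable {W : WeilCohomology.{u, v} ops} {X : 𝒱.Obj}

/-- A system which contains another one on the powers is stable under the correspondences of the
latter. -/
lemma stab_of_le_pw {S R : Sys W} (h : ∀ n, S.C (pw X n) ≤ R.C (pw X n)) :
    S.Stab X fun n => R.C (pw X n) := by
  intro m n f hf a ha
  obtain ⟨z, hz, rfl⟩ := Sys.mem_Op.1 hf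
  have h1 : z ∈ R.C ((pw X m).prod (pw X n)) := by
    have h2 : W.map (pwAdd X m n).hom (W.map (pwAdd X m n).inv z) = z := by
      rw [← W.map_comp, (pwAdd X m n).hom_inv_id, W.map_id]
    rw [← h2]
    exact R.map _ (h _ (S.map _ hz))
  exact Sys.Op.apply (fun _ => le_rfl) (Sys.mem_Op.2 ⟨z, h1, rfl⟩) ha

end Stab

section Hodge

open AH

variable {T : HodgeTheory ops} {X : 𝒱.Obj}

/-- **The zero-one law for a system which contains the Hodge classes on the powers.** -/
theorem zero_one_sys (R : Sys T.W) [Nontrivial (T.W.H X)]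
    (h : ∀ n, (hodgeSys T).C (pw X n) ≤ R.C (pw X n)) :
    (∀ n, R.C (pw X n) = (hodgeSys T).C (pw X n)) ∨
      Tendsto (fun n => (finrank T.W.K ((hodgeSys T).C (pw X n)) : ℝ) /
        finrank T.W.K (R.C (pw X n))) atTop (𝓝 0) := by
  have hch := charZero_K T
  refine zero_one (fun n x hx hxy => hodge_nondeg hx hxy) (oddIn_hodge T X) (stab_of_le_pw h) h ?_
  intro n c _ hA
  exact closed_hodge T X hA

end Hodge

section Pred

variable {T : AHS.HodgeTheory ops} {X : 𝒱.Obj}

/-- **The zero-one law for a property of classes which holds for the Hodge classes on the powers.** -/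
theorem zero_one_pred (Q : ClassPred T.W) [Nontrivial (T.W.H X)]
    (h : ∀ n j (c : T.W.H (pw X n)), AHS.IsHodge T (pw X n) j c → Q.P (pw X n) j c) :
    (∀ n j (c : T.W.H (pw X n)), Q.P (pw X n) j c → AHS.IsHodge T (pw X n) j c) ∨
      Tendsto (fun n => (dimBy T.W (AHS.IsHodge T) (pw X n) : ℝ) / dimBy T.W Q.P (pw X n)) atTop
        (𝓝 0) := by
  have h1 : ∀ n, (AH.hodgeSys (AHS.toH T)).C (pw X n) ≤ Q.sys.C (pw X n) := by
    intro n
    refine Submodule.span_le.2 ?_
    rintro c ⟨j, hc⟩
    exact ClassPred.sp_of (Q := Q) (h n j c hc)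
  have h0 : Nontrivial ((AHS.toH T).W.H X) := (inferInstance : Nontrivial (T.W.H X))
  rcases zero_one_sys (T := AHS.toH T) (R := (Q.sys : Sys (AHS.toH T).W)) (X := X) h1 with h2 | h2
  · left
    intro n j c hc
    have h3 : c ∈ (AH.hodgeSys (AHS.toH T)).C (pw X n) := by
      rw [← h2 n]
      exact ClassPred.sp_of (Q := Q) hc
    have h4 := ClassPred.sp_proj (Q := AH.hodgePred (AHS.toH T)) h3 j
    have h5 : H914.proj ((AHS.toH T).W.isInternal (pw X n)) (2 * j) c = c :=
      proj_same _ (Q.gr hc)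
    rw [h5] at h4
    exact h4
  · right
    exact h2

/-- The dimension of the space of the algebraic classes, if the Hodge conjecture holds. -/
lemma algDim_eq_hodge (T : AHS.HodgeTheory ops) {Z : 𝒱.Obj}
    (h : ∀ j (c : T.W.H Z), AHS.IsHodge T Z j c → c ∈ spanCycles T.W Z j) :
    algDim T.W Z = dimBy T.W (AHS.IsHodge T) Z := by
  have h1 : (AH.hodgePred (AHS.toH T)).sys.C Z = algSpan (AHS.toH T).W Z :=
    (ClassPred.sp_eq_iff (Q := AH.hodgePred (AHS.toH T)) Z).2 h
  have h2 : algDim (AHS.toH T).W Z = dimBy (AHS.toH T).W (AH.hodgePred (AHS.toH T)).P Z := by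
    rw [algDim_eq, ClassPred.dimBy_eq, h1]
  exact h2

end Pred

end Pool.Agent.Q69.ZO
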